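import Pool.Agent.Helper10.CR.Goals1

/-!
Packet CR-STRING: strings give a scheme.
-/

universe u v

namespace Pool.Agent.Helper79.CR

open Pool.Agent.Helper10.Width Pool.Agent.Helper72.Width Pool.Agent.Helper78.SD
open Pool.Agent.Helper10.CR

section

variable {k : Type u} [Field k] {N : ℕ}

/-- The condition on the variable with the number `i`, the other one (`j`) being in `φ`. -/
noncomputable def opF (i j : Fin 2) (ρ : RF2 k N) (φ : RF k N) : RF k N :=
  RF.mk' (ν := Unit ⊕ (Fin ρ.n ⊕ Fin φ.n)) (σ := Fin ρ.s ⊕ Fin φ.s) (θ := Fin ρ.q ⊕ Fin φ.q)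
    (Sum.elim (fun r => ρ.a r i) (fun _ => 0))
    (Sum.elim (fun r => Sum.elim (fun _ => ρ.a r j) (Sum.elim (ρ.b r) (fun _ => 0)))
      (fun r => Sum.elim (fun _ => φ.a r) (Sum.elim (fun _ => 0) (φ.b r))))
    (Sum.elim (fun l t => ρ.c l t i) (fun _ _ => 0))
    (Sum.elim (fun l t => Sum.elim (fun _ => ρ.c l t j) (Sum.elim (ρ.d l t) (fun _ => 0)))
      (fun l t => Sum.elim (fun _ => φ.c l t) (Sum.elim (fun _ => 0) (φ.d l t))))

theorem mem_opF (i j : Fin 2) (ρ : RF2 k N) (φ : RF k N) (X : RS k N) (x : X.V) :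
    x ∈ (opF i j ρ φ).sol X ↔ ∃ s ∈ φ.sol X, ∃ z : Fin ρ.n → X.V,
      (∀ r, ρ.a r i • x + ρ.a r j • s + ∑ m, ρ.b r m • z m = 0) ∧
      ∀ l, (fun t => ρ.c l t i • x + ρ.c l t j • s + ∑ m, ρ.d l t m • z m) ∈ X.Rel := by
  rw [opF, RF.mem_mk']
  constructor
  · rintro ⟨y, hy, hy'⟩
    refine ⟨y (Sum.inl ()), ⟨fun m => y (Sum.inr (Sum.inr m)), fun r => ?_, fun l => ?_⟩,
      fun m => y (Sum.inr (Sum.inl m)), fun r => ?_, fun l => ?_⟩
    · have := hy (Sum.inr r)
      simpa using this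
    · have := hy' (Sum.inr l)
      simpa using this
    · have := hy (Sum.inl r)
      simpa [add_assoc] using this
    · have := hy' (Sum.inl l)
      simpa [add_assoc] using this
  · rintro ⟨s, ⟨y, hy, hy'⟩, z, hz, hz'⟩
    refine ⟨Sum.elim (fun _ => s) (Sum.elim z y), ?_, ?_⟩
    · rintro (r | r)
      · simpa [add_assoc] using hz r
      · simpa using hy r
    · rintro (l | l)
      · simpa [add_assoc] using hz' l
      · simpa using hy' l

/-- The preimage. -/
noncomputable def preF (ρ : RF2 k N) (φ : RF k N) : RF k N := opF 0 1 ρ φ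

/-- The image. -/
noncomputable def imgF (ρ : RF2 k N) (φ : RF k N) : RF k N := opF 1 0 ρ φ

theorem mem_preF (ρ : RF2 k N) (φ : RF k N) (X : RS k N) (x : X.V) :
    x ∈ (preF ρ φ).sol X ↔ ∃ s ∈ φ.sol X, ρ.Sat X x s :=
  mem_opF 0 1 ρ φ X x

theorem mem_imgF (ρ : RF2 k N) (φ : RF k N) (X : RS k N) (x : X.V) :
    x ∈ (imgF ρ φ).sol X ↔ ∃ y ∈ φ.sol X, ρ.Sat X y x := by
  rw [imgF, mem_opF]
  constructor
  · rintro ⟨s, hs, z, hz, hz'⟩
    refine ⟨s, hs, z, fun r => ?_, fun l => ?_⟩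
    · rw [add_comm (ρ.a r 0 • s)]
      exact hz r
    · have := hz' l
      simp only [add_comm (ρ.c l _ 1 • x)] at this
      exact this
  · rintro ⟨s, hs, z, hz, hz'⟩
    refine ⟨s, hs, z, fun r => ?_, fun l => ?_⟩
    · rw [add_comm (ρ.a r 1 • x)]
      exact hz r
    · have := hz' l
      simp only [add_comm (ρ.c l _ 0 • s)] at this
      exact this

/-- The relation given by a letter. -/
def rl (ρs ρx : RF2 k N) (i : Bool) : RF2 k N := if i = true then ρs else ρx

/-- Iterated preimages. -/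
noncomputable def GG (ρs ρx : RF2 k N) (w : List Bool) (φ : RF k N) : RF k N :=
  w.foldl (fun ψ i => preF (rl ρs ρx i) ψ) φ

/-- Iterated images. -/
noncomputable def DDD (ρs ρx : RF2 k N) (w : List Bool) (φ : RF k N) : RF k N :=
  w.foldl (fun ψ i => imgF (rl ρs ρx i) ψ) φ

theorem pre_mono (ρ : RF2 k N) {φ ψ : RF k N} {X : RS k N} (h : φ.sol X ≤ ψ.sol X) :
    (preF ρ φ).sol X ≤ (preF ρ ψ).sol X := by
  intro x hx
  rw [mem_preF] at hx ⊢
  obtain ⟨s, hs, h1⟩ := hx
  exact ⟨s, h hs, h1⟩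

theorem img_mono (ρ : RF2 k N) {φ ψ : RF k N} {X : RS k N} (h : φ.sol X ≤ ψ.sol X) :
    (imgF ρ φ).sol X ≤ (imgF ρ ψ).sol X := by
  intro x hx
  rw [mem_imgF] at hx ⊢
  obtain ⟨s, hs, h1⟩ := hx
  exact ⟨s, h hs, h1⟩

theorem GG_mono (ρs ρx : RF2 k N) (X : RS k N) (w : List Bool) : ∀ {φ ψ : RF k N},
    φ.sol X ≤ ψ.sol X → (GG ρs ρx w φ).sol X ≤ (GG ρs ρx w ψ).sol X := by
  induction w with
  | nil => intro φ ψ h; exact h
  | cons i w ih =>
    intro φ ψ h
    exact ih (pre_mono _ h)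

theorem DDD_mono (ρs ρx : RF2 k N) (X : RS k N) (w : List Bool) : ∀ {φ ψ : RF k N},
    φ.sol X ≤ ψ.sol X → (DDD ρs ρx w φ).sol X ≤ (DDD ρs ρx w ψ).sol X := by
  induction w with
  | nil => intro φ ψ h; exact h
  | cons i w ih =>
    intro φ ψ h
    exact ih (img_mono _ h)

theorem bot_le_sol (X : RS k N) (φ : RF k N) : (RF.bot k N).sol X ≤ φ.sol X := by
  rw [RF.sol_bot]; exact bot_le

theorem sol_le_top (X : RS k N) (φ : RF k N) : φ.sol X ≤ (RF.top k N).sol X := by
  rw [RF.sol_top]; exact le_top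

/-- The facts about the elements `z i` and the functions `ε i`. -/
structure Str1 (ρs ρx : RF2 k N) (t : ℤ → Bool) (X : RS k N) (z : ℤ → X.V) {E : Type u}
    [AddCommGroup E] (ε : ℤ → X.V →+ E) : Prop where
  sat : ∀ i, (rl ρs ρx (t i)).Sat X (z i) (z (i + 1))
  eps : ∀ i, ∀ y s, (rl ρs ρx (t i)).Sat X y s → ε (i + 1) s = ε i y

variable {ρs ρx : RF2 k N} {t : ℤ → Bool} {X : RS k N} {z : ℤ → X.V} {E : Type u}
    [AddCommGroup E] {ε : ℤ → X.V →+ E}

theorem mem_pre_top (h : Str1 ρs ρx t X z ε) (v : List Bool) : ∀ m : ℤ,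
    (∀ j : ℕ, j < v.length → t (m + j) = v.getD j false) →
    z m ∈ (v.foldr (fun i ψ => preF (rl ρs ρx i) ψ) (RF.top k N)).sol X := by
  induction v with
  | nil =>
    intro m _
    show z m ∈ (RF.top k N).sol X
    rw [RF.sol_top]
    trivial
  | cons i v ih =>
    intro m hm
    rw [List.foldr_cons, mem_preF]
    have h0 : t m = i := by
      have := hm 0 (by simp)
      simpa using this
    refine ⟨z (m + 1), ih (m + 1) (fun j hj => ?_), ?_⟩
    · have := hm (j + 1) (by simpa using hj)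
      rw [List.getD_cons_succ] at this
      rw [← this]
      congr 1
      push_cast
      ring
    · rw [← h0]
      exact h.sat m

theorem mem_img_top (h : Str1 ρs ρx t X z ε) (v : List Bool) : ∀ m : ℤ,
    (∀ j : ℕ, j < v.length → t (m - 1 - j) = v.getD j false) →
    z m ∈ (v.foldr (fun i ψ => imgF (rl ρs ρx i) ψ) (RF.top k N)).sol X := by
  induction v with
  | nil =>
    intro m _
    show z m ∈ (RF.top k N).sol X
    rw [RF.sol_top]
    trivial
  | cons i v ih =>
    intro m hm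
    rw [List.foldr_cons, mem_imgF]
    have h0 : t (m - 1) = i := by
      have := hm 0 (by simp)
      simpa using this
    refine ⟨z (m - 1), ih (m - 1) (fun j hj => ?_), ?_⟩
    · have := hm (j + 1) (by simpa using hj)
      rw [List.getD_cons_succ] at this
      rw [← this]
      congr 1
      push_cast
      ring
    · rw [← h0]
      have := h.sat (m - 1)
      rwa [sub_add_cancel] at this

theorem pre_bot_zero (h : Str1 ρs ρx t X z ε) (v : List Bool) : ∀ m : ℤ,
    (∀ j : ℕ, j < v.length → t (m + j) = v.getD j false) →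
    ∀ y ∈ (v.foldr (fun i ψ => preF (rl ρs ρx i) ψ) (RF.bot k N)).sol X, ε m y = 0 := by
  induction v with
  | nil =>
    intro m _ y hy
    have hy' : y ∈ (RF.bot k N).sol X := hy
    rw [RF.sol_bot, Submodule.mem_bot] at hy'
    rw [hy', map_zero]
  | cons i v ih =>
    intro m hm y hy
    rw [List.foldr_cons, mem_preF] at hy
    obtain ⟨s, hs, hsat⟩ := hy
    have h0 : t m = i := by
      have := hm 0 (by simp)
      simpa using this
    rw [← h0] at hsat
    rw [← h.eps m y s hsat]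
    refine ih (m + 1) (fun j hj => ?_) s hs
    have := hm (j + 1) (by simpa using hj)
    rw [List.getD_cons_succ] at this
    rw [← this]
    congr 1
    push_cast
    ring

theorem img_bot_zero (h : Str1 ρs ρx t X z ε) (v : List Bool) : ∀ m : ℤ,
    (∀ j : ℕ, j < v.length → t (m - 1 - j) = v.getD j false) →
    ∀ y ∈ (v.foldr (fun i ψ => imgF (rl ρs ρx i) ψ) (RF.bot k N)).sol X, ε m y = 0 := by
  induction v with
  | nil =>
    intro m _ y hy
    have hy' : y ∈ (RF.bot k N).sol X := hy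
    rw [RF.sol_bot, Submodule.mem_bot] at hy'
    rw [hy', map_zero]
  | cons i v ih =>
    intro m hm y hy
    rw [List.foldr_cons, mem_imgF] at hy
    obtain ⟨s, hs, hsat⟩ := hy
    have h0 : t (m - 1) = i := by
      have := hm 0 (by simp)
      simpa using this
    rw [← h0] at hsat
    have h1 := h.eps (m - 1) s y hsat
    rw [sub_add_cancel] at h1
    rw [h1]
    refine ih (m - 1) (fun j hj => ?_) s hs
    have := hm (j + 1) (by simpa using hj)
    rw [List.getD_cons_succ] at this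
    rw [← this]
    congr 1
    push_cast
    ring

end

/-- Packet CR-STRING. -/
theorem goalString : GoalString.{u} := by
  intro hbox k _ N P hP
  obtain ⟨ρs, ρx, hs1, hs2, ht⟩ := hP
  refine hbox (DLat P) (fun w => toD P (GG ρs ρx w (RF.bot k N)))
    (fun w => toD P (GG ρs ρx w (RF.top k N))) (fun w => toD P (DDD ρs ρx w (RF.bot k N)))
    (fun w => toD P (DDD ρs ρx w (RF.top k N))) ?_ ?_ ?_ ?_ ?_ ?_ ?_ ?_ ?_
  · exact fun w X => GG_mono ρs ρx X.1 w (bot_le_sol X.1 _)
  · exact fun w X => DDD_mono ρs ρx X.1 w (bot_le_sol X.1 _)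
  · exact fun w X => GG_mono ρs ρx X.1 w (bot_le_sol X.1 _)
  · intro w X
    refine GG_mono ρs ρx X.1 w ?_
    intro y hy
    rw [mem_preF] at hy ⊢
    obtain ⟨s, -, hs⟩ := hy
    refine ⟨0, Submodule.zero_mem _, ?_⟩
    exact hs1 X.1 X.2 y s hs
  · exact fun w X => GG_mono ρs ρx X.1 w (sol_le_top X.1 _)
  · exact fun w X => DDD_mono ρs ρx X.1 w (bot_le_sol X.1 _)
  · intro w X
    refine DDD_mono ρs ρx X.1 w ?_
    intro s hs
    rw [mem_imgF] at hs ⊢
    obtain ⟨y, -, hy⟩ := hs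
    refine ⟨0, Submodule.zero_mem _, ?_⟩
    exact hs2 X.1 X.2 y s hy
  · exact fun w X => DDD_mono ρs ρx X.1 w (sol_le_top X.1 _)
  · intro w hle
    have hle' : toD P (GG ρs ρx w (RF.top k N)) ⊓ toD P (DDD ρs ρx w (RF.top k N)) ≤
        (toD P (GG ρs ρx w (RF.bot k N)) ⊓ toD P (DDD ρs ρx w (RF.top k N))) ⊔
        (toD P (GG ρs ρx w (RF.top k N)) ⊓ toD P (DDD ρs ρx w (RF.bot k N))) := hle
    rw [← toD_inf, ← toD_inf, ← toD_inf, ← toD_sup, toD_le] at hle'
    obtain ⟨X, hX, z, E, _, ε, hne, htr, hfa⟩ := ht (fun a : ℤ =>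
      if 0 ≤ a then w.reverse.getD a.toNat false else w.reverse.getD (-1 - a).toNat false)
    set t : ℤ → Bool := fun a : ℤ =>
      if 0 ≤ a then w.reverse.getD a.toNat false else w.reverse.getD (-1 - a).toNat false with htdef
    have hstr : Str1 ρs ρx t X z ε := by
      constructor
      · intro i
        cases hi : t i with
        | true => exact (htr i hi).1
        | false => exact (hfa i hi).1
      · intro i
        cases hi : t i with
        | true => exact (htr i hi).2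
        | false => exact (hfa i hi).2
    have hG : ∀ j : ℕ, j < w.reverse.length → t (0 + j) = w.reverse.getD j false := by
      intro j _
      rw [htdef]
      simp
    have hD : ∀ j : ℕ, j < w.reverse.length → t (0 - 1 - j) = w.reverse.getD j false := by
      intro j _
      rw [htdef]
      have h1 : ¬ (0 : ℤ) ≤ 0 - 1 - j := by omega
      simp only [h1, if_false]
      congr 1
      omega
    have eG : ∀ φ : RF k N, GG ρs ρx w φ =
        w.reverse.foldr (fun i ψ => preF (rl ρs ρx i) ψ) φ := by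
      intro φ
      rw [List.foldr_reverse]
      rfl
    have eD : ∀ φ : RF k N, DDD ρs ρx w φ =
        w.reverse.foldr (fun i ψ => imgF (rl ρs ρx i) ψ) φ := by
      intro φ
      rw [List.foldr_reverse]
      rfl
    have hz : z 0 ∈ ((GG ρs ρx w (RF.top k N)).inf (DDD ρs ρx w (RF.top k N))).sol X := by
      rw [RF.sol_inf, Submodule.mem_inf, eG, eD]
      exact ⟨mem_pre_top hstr _ 0 hG, mem_img_top hstr _ 0 hD⟩
    have hz2 := hle' ⟨X, hX⟩ hz
    rw [RF.sol_sup, RF.sol_inf, RF.sol_inf, Submodule.mem_sup] at hz2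
    obtain ⟨y, hy, y', hy', hyy⟩ := hz2
    have hy1 := (Submodule.mem_inf.mp hy).1
    have hy2 := (Submodule.mem_inf.mp hy').2
    rw [eG] at hy1
    rw [eD] at hy2
    apply hne
    rw [← hyy, map_add, pre_bot_zero hstr _ 0 hG y hy1, img_bot_zero hstr _ 0 hD y' hy2, add_zero]

end Pool.Agent.Helper79.CR
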