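import Pool.Agent.Helper85.CR.Goals

set_option autoImplicit false

namespace Pool.Agent.Helper79.CR

open Pool.Agent.Helper85.CR

/-- the equivalence `V ⊕ X ≃ Option V ⊕ {x // x ≠ x₀}`, inverse direction -/
noncomputable def mv {V X : Type} (x₀ : X) : Option V ⊕ {x // x ≠ x₀} → V ⊕ X
  | Sum.inl none => Sum.inr x₀
  | Sum.inl (some v) => Sum.inl v
  | Sum.inr x => Sum.inr x.1

theorem mv_bij {V X : Type} (x₀ : X) : Function.Bijective (mv (V := V) x₀) := by
  constructor
  · rintro ((_ | u) | ⟨x, hx⟩) ((_ | v) | ⟨y, hy⟩) h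
    · rfl
    · exact absurd h (by simp [mv])
    · exact absurd (Sum.inr.inj h).symm hy
    · exact absurd h (by simp [mv])
    · rw [Sum.inl.inj h]
    · exact absurd h (by simp [mv])
    · exact absurd (Sum.inr.inj h) hx
    · exact absurd h (by simp [mv])
    · have : x = y := Sum.inr.inj h
      subst this
      rfl
  · rintro (v | x)
    · exact ⟨Sum.inl (some v), rfl⟩
    · by_cases h : x = x₀
      · exact ⟨Sum.inl none, by rw [h]; rfl⟩
      · exact ⟨Sum.inr ⟨x, h⟩, rfl⟩

theorem gONEP (hPISO : StmtPISO) : StmtONEP := by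
  intro n
  induction n with
  | zero =>
    intro V X _ G q K hcard hq hp hK
    have : IsEmpty X := Fintype.card_eq_zero_iff.1 hcard
    refine hPISO V (V ⊕ X) (Equiv.sumEmpty V X).symm G K ?_ hK
    intro u v huv
    exact hp.old u v huv (fun ⟨x, _⟩ => isEmptyElim x)
  | succ n ih =>
    intro V X _ G q K hcard hq hp hK
    classical
    obtain ⟨x₀⟩ : Nonempty X := Fintype.card_pos_iff.1 (by omega)
    have hinj := hq.inj x₀
    have hne : ∀ i j : Fin 4, i ≠ j → q x₀ i ≠ q x₀ j := fun i j h h' => h (hinj h')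
    refine ⟨q x₀ 0, q x₀ 1, q x₀ 2, q x₀ 3, hne _ _ (by decide), hne _ _ (by decide),
      hne _ _ (by decide), hne _ _ (by decide), (hq.adj x₀).1, (hq.adj x₀).2, ?_⟩
    have hsome : ∀ u v, (planarize G (q x₀ 0) (q x₀ 1) (q x₀ 2) (q x₀ 3)).Adj (some u) (some v) ↔
        G.Adj u v ∧ s(u, v) ≠ s(q x₀ 0, q x₀ 2) ∧ s(u, v) ≠ s(q x₀ 1, q x₀ 3) := by
      intro u v
      unfold planarize
      rw [SimpleGraph.fromRel_adj]
      constructor
      · rintro ⟨_, h | h⟩
        · exact h
        · exact ⟨h.1.symm, by rw [Sym2.eq_swap]; exact h.2.1, by rw [Sym2.eq_swap]; exact h.2.2⟩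
      · intro h
        exact ⟨fun e => h.1.ne (Option.some.inj e), Or.inl h⟩
    have hnone : ∀ v, (planarize G (q x₀ 0) (q x₀ 1) (q x₀ 2) (q x₀ 3)).Adj none (some v) →
        ∃ i, v = q x₀ i := by
      intro v
      unfold planarize
      rw [SimpleGraph.fromRel_adj]
      rintro ⟨_, h | h⟩
      · have h' : v = q x₀ 0 ∨ v = q x₀ 1 ∨ v = q x₀ 2 ∨ v = q x₀ 3 := h
        rcases h' with h | h | h | h
        exacts [⟨0, h⟩, ⟨1, h⟩, ⟨2, h⟩, ⟨3, h⟩]
      · exact absurd h (by simp)
    have hs : ∀ a b c d : V, s(some a, some b) = s(some c, some d) → s(a, b) = s(c, d) := by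
      intro a b c d h
      simpa using h
    refine ih (Option V) {x // x ≠ x₀} _ (fun x i => some (q x.1 i)) (K.comap (mv x₀)) ?_ ?_ ?_ ?_
    · have := Fintype.card_subtype_compl (fun x => x = x₀)
      rw [Fintype.card_subtype_eq, hcard] at this
      have h2 : Fintype.card {x // x ≠ x₀} = Fintype.card {x // ¬ x = x₀} := rfl
      rw [h2, this]
      rfl
    · refine ⟨?_, ?_, ?_⟩
      · intro x i j h
        exact hq.inj x.1 (Option.some.inj h)
      · intro x
        constructor
        · rw [hsome]
          exact ⟨(hq.adj x.1).1, (hq.dist x.1 x₀ x.2).1, (hq.dist x.1 x₀ x.2).2.1⟩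
        · rw [hsome]
          exact ⟨(hq.adj x.1).2, (hq.dist x₀ x.1 (Ne.symm x.2)).2.1.symm,
            (hq.dist x.1 x₀ x.2).2.2⟩
      · intro x y hxy
        have hxy' : x.1 ≠ y.1 := fun h => hxy (Subtype.ext h)
        have h := hq.dist x.1 y.1 hxy'
        exact ⟨fun e => h.1 (hs _ _ _ _ e), fun e => h.2.1 (hs _ _ _ _ e),
          fun e => h.2.2 (hs _ _ _ _ e)⟩
    · refine ⟨?_, ?_⟩
      · intro u v huv hc
        rcases u with _ | u <;> rcases v with _ | v
        · exact absurd huv (SimpleGraph.irrefl _)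
        · obtain ⟨i, rfl⟩ := hnone v huv
          exact (hp.new x₀ i).symm
        · obtain ⟨i, rfl⟩ := hnone u huv.symm
          exact hp.new x₀ i
        · rw [hsome] at huv
          refine hp.old u v huv.1 ?_
          rintro ⟨x, hx⟩
          by_cases hxx : x = x₀
          · subst hxx
            rcases hx with hx | hx
            · exact huv.2.1 hx
            · exact huv.2.2 hx
          · apply hc
            refine ⟨⟨x, hxx⟩, ?_⟩
            rcases hx with hx | hx
            · left
              have := congrArg (Sym2.map some) hx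
              simpa using this
            · right
              have := congrArg (Sym2.map some) hx
              simpa using this
      · intro x i
        exact hp.new x.1 i
    · exact hPISO _ _ (Equiv.ofBijective (mv x₀) (mv_bij x₀)) (K.comap (mv x₀)) K
        (fun u v h => h) hK

end Pool.Agent.Helper79.CR
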